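import Pool.Agent.Helper365.AL.Cut

/-!
The area of the self-avoiding polygons in the fixed perimeter ensemble with a parameter `q > 1`:
the largest area `⌊m² / 4⌋` is an atom whose mass is bounded below, and the area is within `O(1)`
of it.  So no centring and no scaling lead to a Gaussian law.
-/

set_option autoImplicit false

namespace Pool.Agent.Results.MP_d21795_pr.InflatedNotGaussian

open Filter Topology MeasureTheory ProbabilityTheory

/-- a closed nearest-neighbour loop on `ℤ²` with `m` steps, rooted at the origin and oriented,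
that visits no vertex twice.  For `m ≥ 2` a self-avoiding polygon of perimeter `2 m`, up to
translation, corresponds to exactly `4 m` loops with `2 m` steps: the `2 m` roots and the two
orientations -/
def IsLoop (m : ℕ) (f : ZMod m → ℤ × ℤ) : Prop :=
  f 0 = 0 ∧ Function.Injective f ∧
    ∀ i : ZMod m, |(f (i + 1)).1 - (f i).1| + |(f (i + 1)).2 - (f i).2| = 1

/-- the edge from `f k` to `f (k+1)` is horizontal, joins the columns `x = a` and `x = a + 1`, and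
has height larger than `b`: it lies above the unit cell `[a, a+1] × [b, b+1]` -/
def Above (m : ℕ) (f : ZMod m → ℤ × ℤ) (a b : ℤ) (k : ZMod m) : Prop :=
  (((f k).1 = a ∧ (f (k + 1)).1 = a + 1) ∨ ((f k).1 = a + 1 ∧ (f (k + 1)).1 = a)) ∧ b < (f k).2

/-- the unit cell `[a, a+1] × [b, b+1]` is enclosed by the loop: the vertical ray from the cell
upwards crosses an odd number of edges -/
def Encl (m : ℕ) (f : ZMod m → ℤ × ℤ) (c : ℤ × ℤ) : Prop :=
  Odd (Nat.card {k : ZMod m // Above m f c.1 c.2 k})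

/-- the area: the number of unit cells enclosed by the loop -/
noncomputable def area (m : ℕ) (f : ZMod m → ℤ × ℤ) : ℕ := Nat.card {c : ℤ × ℤ // Encl m f c}

/-- the expectation of `φ (X_m)`, where `X_m` is the area in the fixed perimeter ensemble with
parameter `q`: the polygons of half-perimeter `m` have weights proportional to `q ^ area` -/
noncomputable def ex (q : ℝ) (m : ℕ) (φ : ℝ → ℝ) : ℝ :=
  (∑ᶠ f ∈ {f : ZMod (2 * m) → ℤ × ℤ | IsLoop (2 * m) f},
    φ (area (2 * m) f) * q ^ area (2 * m) f) /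
  ∑ᶠ f ∈ {f : ZMod (2 * m) → ℤ × ℤ | IsLoop (2 * m) f}, q ^ area (2 * m) f

/-- the probability that `X_m ∈ S` -/
noncomputable def pr (q : ℝ) (m : ℕ) (S : Set ℝ) : ℝ := ex q m (S.indicator (fun _ => 1))

/-- the mean of `X_m` -/
noncomputable def mean (q : ℝ) (m : ℕ) : ℝ := ex q m (fun x => x)

/-- the variance of `X_m` -/
noncomputable def var (q : ℝ) (m : ℕ) : ℝ := ex q m (fun x => (x - mean q m) ^ 2)

section

variable {q : ℝ} {m : ℕ}

/-- the loops, as a finite set -/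
noncomputable def Lp (hm : 2 ≤ m) : Finset (ZMod (2 * m) → ℤ × ℤ) :=
  (Y981.L2.loops_finite (n := m) (by omega)).toFinset

theorem mem_Lp (hm : 2 ≤ m) (f : ZMod (2 * m) → ℤ × ℤ) : f ∈ Lp hm ↔ IsLoop (2 * m) f := by
  unfold Lp
  rw [Set.Finite.mem_toFinset]
  rfl

theorem ex_eq (hm : 2 ≤ m) (φ : ℝ → ℝ) : ex q m φ =
    (∑ f ∈ Lp hm, φ (area (2 * m) f) * q ^ area (2 * m) f) /
      ∑ f ∈ Lp hm, q ^ area (2 * m) f := by
  have hfin : {f : ZMod (2 * m) → ℤ × ℤ | IsLoop (2 * m) f}.Finite :=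
    Y981.L2.loops_finite (n := m) (by omega)
  unfold ex Lp
  rw [finsum_mem_eq_finite_toFinset_sum _ hfin, finsum_mem_eq_finite_toFinset_sum _ hfin]
  rfl

theorem area_top (hm : 2 ≤ m) {f : ZMod (2 * m) → ℤ × ℤ} (hf : IsLoop (2 * m) f) :
    area (2 * m) f ≤ m ^ 2 / 4 := by
  have : NeZero (2 * m) := ⟨by omega⟩
  exact Helper365.AL.area_top (m := m) (by omega) hf

theorem Z_ge (hq : 0 < q) (hm : 2 ≤ m) :
    2 * m * q ^ (m ^ 2 / 4) ≤ ∑ f ∈ (Lp hm).filter (fun f => area (2 * m) f = m ^ 2 / 4),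
      q ^ area (2 * m) f := by
  classical
  have : NeZero (2 * m) := ⟨by omega⟩
  have h1 := Helper365.AL.card_top hm
  have h2 : {f : ZMod (2 * m) → ℤ × ℤ | H981.IsLoop (2 * m) f ∧
      Y981.L2.area (2 * m) f = m ^ 2 / 4}.ncard =
      ((Lp hm).filter (fun f => area (2 * m) f = m ^ 2 / 4)).card := by
    rw [← Set.ncard_coe_finset]
    congr 1
    ext f
    rw [Finset.mem_coe, Finset.mem_filter, mem_Lp]
    rfl
  rw [h2] at h1
  have h3 : ∑ f ∈ (Lp hm).filter (fun f => area (2 * m) f = m ^ 2 / 4), q ^ area (2 * m) f =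
      ∑ f ∈ (Lp hm).filter (fun f => area (2 * m) f = m ^ 2 / 4), q ^ (m ^ 2 / 4) := by
    apply Finset.sum_congr rfl
    intro f hf
    rw [Finset.mem_filter] at hf
    rw [hf.2]
  rw [h3, Finset.sum_const, nsmul_eq_mul]
  apply mul_le_mul_of_nonneg_right _ (by positivity)
  exact_mod_cast h1

theorem Z_ge' (hq : 0 < q) (hm : 2 ≤ m) :
    2 * m * q ^ (m ^ 2 / 4) ≤ ∑ f ∈ Lp hm, q ^ area (2 * m) f :=
  (Z_ge hq hm).trans (Finset.sum_le_sum_of_subset_of_nonneg (Finset.filter_subset _ _)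
    (fun f _ _ => by positivity))

theorem Z_pos (hq : 0 < q) (hm : 2 ≤ m) : 0 < ∑ f ∈ Lp hm, q ^ area (2 * m) f := by
  have h1 := Z_ge' hq hm
  have h2 : (0 : ℝ) < m := by exact_mod_cast (by omega : 0 < m)
  have h3 : 0 < 2 * m * q ^ (m ^ 2 / 4) := by positivity
  linarith

theorem pr_eq (hm : 2 ≤ m) (S : Set ℝ) [DecidablePred (· ∈ S)] : pr q m S =
    (∑ f ∈ (Lp hm).filter (fun f => (area (2 * m) f : ℝ) ∈ S), q ^ area (2 * m) f) /
      ∑ f ∈ Lp hm, q ^ area (2 * m) f := by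
  unfold pr
  rw [ex_eq hm, Finset.sum_filter]
  congr 1
  apply Finset.sum_congr rfl
  intro f _
  unfold Set.indicator
  split_ifs with h
  · rw [one_mul]
  · rw [zero_mul]

/-- the bound of the partition function -/
def Bd (q C : ℝ) : Prop := 0 < C ∧ ∀ m : ℕ, 2 ≤ m → ∀ [NeZero (2 * m)]
    (F : Finset (ZMod (2 * m) → ℤ × ℤ)), (∀ f ∈ F, IsLoop (2 * m) f) →
    ∑ f ∈ F, q ^ area (2 * m) f ≤ C * m * q ^ (m ^ 2 / 4)

theorem exists_Bd (hq : 1 < q) : ∃ C, Bd q C := by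
  obtain ⟨C, h0, h⟩ := Helper365.AL.total_gen hq
  exact ⟨C, h0, fun m hm _ F hF => h m hm F hF⟩

/-- the atom -/
theorem atom {C : ℝ} (hq0 : 0 < q) (hC : Bd q C) (hm : 2 ≤ m) :
    2 / C ≤ pr q m {((m ^ 2 / 4 : ℕ) : ℝ)} := by
  classical
  have hC0 := hC.1
  have : NeZero (2 * m) := ⟨by omega⟩
  rw [pr_eq hm, le_div_iff₀ (Z_pos hq0 hm)]
  have h1 : (Lp hm).filter (fun f => (area (2 * m) f : ℝ) ∈ ({((m ^ 2 / 4 : ℕ) : ℝ)} : Set ℝ)) =
      (Lp hm).filter (fun f => area (2 * m) f = m ^ 2 / 4) := by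
    apply Finset.filter_congr
    intro f _
    rw [Set.mem_singleton_iff, Nat.cast_inj]
  rw [h1]
  have h2 := Z_ge hq0 hm
  have h3 : ∑ f ∈ Lp hm, q ^ area (2 * m) f ≤ C * m * q ^ (m ^ 2 / 4) :=
    hC.2 m hm (Lp hm) (fun f hf => (mem_Lp hm f).1 hf)
  calc 2 / C * ∑ f ∈ Lp hm, q ^ area (2 * m) f ≤ 2 / C * (C * m * q ^ (m ^ 2 / 4)) :=
        mul_le_mul_of_nonneg_left h3 (by positivity)
    _ = 2 * m * q ^ (m ^ 2 / 4) := by field_simp
    _ ≤ _ := h2

/-- the other areas -/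
theorem rest {C : ℝ} (hq0 : 0 < q) (hC : Bd q C) (hm : 2 ≤ m) {S : Set ℝ}
    (hS : ((m ^ 2 / 4 : ℕ) : ℝ) ∉ S) : pr q m S ≤ 1 - 2 / C := by
  classical
  have h1 := atom hq0 hC hm
  have h2 : pr q m S + pr q m {((m ^ 2 / 4 : ℕ) : ℝ)} ≤ 1 := by
    rw [pr_eq hm, pr_eq hm, ← add_div, div_le_one (Z_pos hq0 hm), ← Finset.sum_union]
    · apply Finset.sum_le_sum_of_subset_of_nonneg
      · exact Finset.union_subset (Finset.filter_subset _ _) (Finset.filter_subset _ _)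
      · intro f _ _
        positivity
    · rw [Finset.disjoint_left]
      intro f hf hf2
      rw [Finset.mem_filter] at hf hf2
      rw [Set.mem_singleton_iff] at hf2
      rw [hf2.2] at hf
      exact hS hf.2
  linarith

theorem full (hq : 0 < q) (hm : 2 ≤ m) {S : Set ℝ}
    (hS : ∀ n : ℕ, n ≤ m ^ 2 / 4 → (n : ℝ) ∈ S) : pr q m S = 1 := by
  classical
  rw [pr_eq hm, Finset.filter_true_of_mem, div_self (Z_pos hq hm).ne']
  intro f hf
  rw [mem_Lp] at hf
  exact hS _ (area_top hm hf)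

/-- exponential tightness -/
theorem tail {p C : ℝ} (hp : 0 < p) (hpq : p ≤ q) (hC : Bd p C) (hm : 2 ≤ m) (J : ℕ) :
    pr q m {x | x ≤ ((m ^ 2 / 4 : ℕ) : ℝ) - J} ≤ C / 2 * (p / q) ^ J := by
  classical
  have hC0 := hC.1
  have hq0 : 0 < q := by linarith
  have : NeZero (2 * m) := ⟨by omega⟩
  have hm0 : (0 : ℝ) < m := by exact_mod_cast (by omega : 0 < m)
  rw [pr_eq hm, div_le_iff₀ (Z_pos hq0 hm)]
  have h3 : ∑ f ∈ (Lp hm).filter (fun f => (area (2 * m) f : ℝ) ∈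
      {x : ℝ | x ≤ ((m ^ 2 / 4 : ℕ) : ℝ) - J}), p ^ area (2 * m) f ≤
      C * m * p ^ (m ^ 2 / 4) :=
    hC.2 m hm _ (fun f hf => (mem_Lp hm f).1 (Finset.mem_filter.1 hf).1)
  have h4 : ∀ f ∈ (Lp hm).filter (fun f => (area (2 * m) f : ℝ) ∈
      {x : ℝ | x ≤ ((m ^ 2 / 4 : ℕ) : ℝ) - J}), q ^ area (2 * m) f ≤
      p ^ area (2 * m) f * ((q / p) ^ (m ^ 2 / 4) * (p / q) ^ J) := by
    intro f hf
    rw [Finset.mem_filter, Set.mem_ofPred_eq] at hf
    have h5 : area (2 * m) f + J ≤ m ^ 2 / 4 := by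
      have : ((area (2 * m) f : ℕ) : ℝ) + J ≤ ((m ^ 2 / 4 : ℕ) : ℝ) := by linarith [hf.2]
      exact_mod_cast this
    obtain ⟨l, hl⟩ : ∃ l, m ^ 2 / 4 = area (2 * m) f + J + l := ⟨m ^ 2 / 4 - area (2 * m) f - J,
      by omega⟩
    have h6 : (1 : ℝ) ≤ q / p := by rw [le_div_iff₀ hp]; linarith
    have h7 : (q / p) ^ J * (p / q) ^ J = 1 := by
      rw [← mul_pow]
      have : q / p * (p / q) = 1 := by field_simp
      rw [this, one_pow]
    have h8 : q ^ area (2 * m) f = p ^ area (2 * m) f * (q / p) ^ area (2 * m) f := by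
      rw [← mul_pow]
      congr 1
      field_simp
    rw [h8]
    apply mul_le_mul_of_nonneg_left _ (by positivity)
    rw [hl, pow_add, pow_add]
    calc (q / p) ^ area (2 * m) f = (q / p) ^ area (2 * m) f * 1 * 1 := by ring
      _ ≤ (q / p) ^ area (2 * m) f * 1 * (q / p) ^ l :=
          mul_le_mul_of_nonneg_left (one_le_pow₀ h6) (by positivity)
      _ = (q / p) ^ area (2 * m) f * ((q / p) ^ J * (p / q) ^ J) * (q / p) ^ l := by
          rw [h7]
      _ = _ := by ring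
  have h5 := Z_ge' hq0 hm
  have h6 : (0 : ℝ) ≤ (p / q) ^ J := by positivity
  have h7 : p ^ (m ^ 2 / 4) * (q / p) ^ (m ^ 2 / 4) = q ^ (m ^ 2 / 4) := by
    rw [← mul_pow]
    congr 1
    field_simp
  refine (Finset.sum_le_sum h4).trans ?_
  rw [← Finset.sum_mul]
  calc (∑ f ∈ (Lp hm).filter (fun f => (area (2 * m) f : ℝ) ∈
      {x : ℝ | x ≤ ((m ^ 2 / 4 : ℕ) : ℝ) - J}), p ^ area (2 * m) f) *
        ((q / p) ^ (m ^ 2 / 4) * (p / q) ^ J)
      ≤ C * m * p ^ (m ^ 2 / 4) * ((q / p) ^ (m ^ 2 / 4) * (p / q) ^ J) :=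
        mul_le_mul_of_nonneg_right h3 (by positivity)
    _ = C / 2 * (p / q) ^ J * (2 * m * (p ^ (m ^ 2 / 4) * (q / p) ^ (m ^ 2 / 4))) := by
        ring
    _ = C / 2 * (p / q) ^ J * (2 * m * q ^ (m ^ 2 / 4)) := by rw [h7]
    _ ≤ _ := mul_le_mul_of_nonneg_left h5 (by positivity)

/-- the second moment of the deficit -/
theorem second {p C L : ℝ} (hp : 0 < p) (hpq : p ≤ q) (hC : Bd p C) (hm : 2 ≤ m)
    (hL : ∀ j : ℕ, (j : ℝ) ^ 2 ≤ L * (q / p) ^ j) :
    ex q m (fun x => (x - ((m ^ 2 / 4 : ℕ) : ℝ)) ^ 2) ≤ L * (C / 2) := by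
  classical
  have hC0 := hC.1
  have hq0 : 0 < q := by linarith
  have : NeZero (2 * m) := ⟨by omega⟩
  have hm0 : (0 : ℝ) < m := by exact_mod_cast (by omega : 0 < m)
  have hL0 : 0 ≤ L := by
    have := hL 0
    simpa using this
  rw [ex_eq hm, div_le_iff₀ (Z_pos hq0 hm)]
  have h3 : ∑ f ∈ Lp hm, p ^ area (2 * m) f ≤ C * m * p ^ (m ^ 2 / 4) :=
    hC.2 m hm _ (fun f hf => (mem_Lp hm f).1 hf)
  have h4 : ∀ f ∈ Lp hm, ((area (2 * m) f : ℝ) - ((m ^ 2 / 4 : ℕ) : ℝ)) ^ 2 *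
      q ^ area (2 * m) f ≤ p ^ area (2 * m) f * (L * (q / p) ^ (m ^ 2 / 4)) := by
    intro f hf
    have h5 := area_top hm ((mem_Lp hm f).1 hf)
    obtain ⟨l, hl⟩ : ∃ l, m ^ 2 / 4 = area (2 * m) f + l := ⟨m ^ 2 / 4 - area (2 * m) f, by omega⟩
    have h8 : q ^ area (2 * m) f = p ^ area (2 * m) f * (q / p) ^ area (2 * m) f := by
      rw [← mul_pow]
      congr 1
      field_simp
    rw [hl, h8]
    have e1 : ((area (2 * m) f : ℝ) - ((area (2 * m) f + l : ℕ) : ℝ)) ^ 2 = (l : ℝ) ^ 2 := by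
      push_cast
      ring
    rw [e1, pow_add]
    calc (l : ℝ) ^ 2 * (p ^ area (2 * m) f * (q / p) ^ area (2 * m) f)
        ≤ (L * (q / p) ^ l) * (p ^ area (2 * m) f * (q / p) ^ area (2 * m) f) :=
          mul_le_mul_of_nonneg_right (hL l) (by positivity)
      _ = _ := by ring
  have h5 := Z_ge' hq0 hm
  have h7 : p ^ (m ^ 2 / 4) * (q / p) ^ (m ^ 2 / 4) = q ^ (m ^ 2 / 4) := by
    rw [← mul_pow]
    congr 1
    field_simp
  refine (Finset.sum_le_sum h4).trans ?_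
  rw [← Finset.sum_mul]
  calc (∑ f ∈ Lp hm, p ^ area (2 * m) f) * (L * (q / p) ^ (m ^ 2 / 4))
      ≤ C * m * p ^ (m ^ 2 / 4) * (L * (q / p) ^ (m ^ 2 / 4)) :=
        mul_le_mul_of_nonneg_right h3 (by positivity)
    _ = L * (C / 2) * (2 * m * (p ^ (m ^ 2 / 4) * (q / p) ^ (m ^ 2 / 4))) := by ring
    _ = L * (C / 2) * (2 * m * q ^ (m ^ 2 / 4)) := by rw [h7]
    _ ≤ _ := mul_le_mul_of_nonneg_left h5 (by positivity)

/-- the variance is at most the second moment about any point -/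
theorem var_le (hq : 0 < q) (hm : 2 ≤ m) (y : ℝ) : var q m ≤ ex q m (fun x => (x - y) ^ 2) := by
  classical
  have hZ := Z_pos hq hm
  obtain ⟨μ, hμ⟩ : ∃ μ, μ = mean q m := ⟨_, rfl⟩
  unfold var
  rw [← hμ, ex_eq hm, ex_eq hm]
  apply div_le_div_of_nonneg_right _ hZ.le
  have h1 : ∑ f ∈ Lp hm, (area (2 * m) f : ℝ) * q ^ area (2 * m) f =
      μ * ∑ f ∈ Lp hm, q ^ area (2 * m) f := by
    rw [hμ]
    unfold mean
    rw [ex_eq hm, div_mul_cancel₀ _ hZ.ne']
  have h2 : ∑ f ∈ Lp hm, ((area (2 * m) f : ℝ) - y) ^ 2 * q ^ area (2 * m) f =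
      ∑ f ∈ Lp hm, ((area (2 * m) f : ℝ) - μ) ^ 2 * q ^ area (2 * m) f +
        2 * (μ - y) * (∑ f ∈ Lp hm, (area (2 * m) f : ℝ) * q ^ area (2 * m) f -
          μ * ∑ f ∈ Lp hm, q ^ area (2 * m) f) +
        (μ - y) ^ 2 * ∑ f ∈ Lp hm, q ^ area (2 * m) f := by
    rw [Finset.mul_sum, Finset.mul_sum, ← Finset.sum_sub_distrib, Finset.mul_sum,
      ← Finset.sum_add_distrib, ← Finset.sum_add_distrib]
    apply Finset.sum_congr rfl
    intro f _
    ring
  rw [h2, h1, sub_self, mul_zero, add_zero]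
  have : 0 ≤ (μ - y) ^ 2 * ∑ f ∈ Lp hm, q ^ area (2 * m) f := by positivity
  linarith

/-- the variance is bounded below -/
theorem var_ge {C : ℝ} (hq1 : 1 < q) (hC : Bd q C) (hm : 4 ≤ m) : 1 / (C * q) ≤ var q m := by
  classical
  have hC0 := hC.1
  have hq0 : 0 < q := by linarith
  have hm2 : 2 ≤ m := by omega
  have : NeZero (2 * m) := ⟨by omega⟩
  have hm0 : (0 : ℝ) < m := by exact_mod_cast (by omega : 0 < m)
  have hZ := Z_pos hq0 hm2
  obtain ⟨μ, hμ⟩ : ∃ μ, μ = mean q m := ⟨_, rfl⟩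
  obtain ⟨N, hN⟩ : ∃ N, m ^ 2 / 4 = N + 1 := by
    have : 1 ≤ m ^ 2 / 4 := by
      rw [Nat.le_div_iff_mul_le (by norm_num)]
      nlinarith
    exact ⟨m ^ 2 / 4 - 1, by omega⟩
  unfold var
  rw [← hμ, ex_eq hm2, le_div_iff₀ hZ]
  have h3 : ∑ f ∈ Lp hm2, q ^ area (2 * m) f ≤ C * m * q ^ (m ^ 2 / 4) :=
    hC.2 m hm2 (Lp hm2) (fun f hf => (mem_Lp hm2 f).1 hf)
  obtain ⟨A, hA⟩ : ∃ A, A = (Lp hm2).filter (fun f => area (2 * m) f = N + 1) := ⟨_, rfl⟩
  obtain ⟨B, hB⟩ : ∃ B, B = (Lp hm2).filter (fun f => area (2 * m) f = N) := ⟨_, rfl⟩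
  have hAc : (2 * m : ℝ) ≤ A.card := by
    have h1 := Helper365.AL.card_top hm2
    have h2 : {f : ZMod (2 * m) → ℤ × ℤ | H981.IsLoop (2 * m) f ∧
        Y981.L2.area (2 * m) f = m ^ 2 / 4}.ncard = A.card := by
      rw [hA, ← Set.ncard_coe_finset, ← hN]
      congr 1
      ext f
      rw [Finset.mem_coe, Finset.mem_filter, mem_Lp]
      rfl
    rw [h2] at h1
    exact_mod_cast h1
  have hBc : (2 * m : ℝ) ≤ B.card := by
    have h1 := Helper365.AL.card_sub hm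
    have h2 : {f : ZMod (2 * m) → ℤ × ℤ | H981.IsLoop (2 * m) f ∧
        Y981.L2.area (2 * m) f + 1 = m ^ 2 / 4}.ncard = B.card := by
      rw [hB, ← Set.ncard_coe_finset]
      congr 1
      ext f
      rw [Finset.mem_coe, Finset.mem_filter, mem_Lp, hN]
      constructor
      · rintro ⟨g1, g2⟩
        exact ⟨g1, Nat.succ_injective g2⟩
      · rintro ⟨g1, g2⟩
        exact ⟨g1, congrArg Nat.succ g2⟩
    rw [h2] at h1
    exact_mod_cast h1
  have hsA : ∑ f ∈ A, ((area (2 * m) f : ℝ) - μ) ^ 2 * q ^ area (2 * m) f =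
      A.card * (((N : ℝ) + 1 - μ) ^ 2 * q ^ (N + 1)) := by
    rw [← nsmul_eq_mul, ← Finset.sum_const]
    apply Finset.sum_congr rfl
    intro f hf
    rw [hA, Finset.mem_filter] at hf
    rw [hf.2]
    push_cast
    rfl
  have hsB : ∑ f ∈ B, ((area (2 * m) f : ℝ) - μ) ^ 2 * q ^ area (2 * m) f =
      B.card * (((N : ℝ) - μ) ^ 2 * q ^ N) := by
    rw [← nsmul_eq_mul, ← Finset.sum_const]
    apply Finset.sum_congr rfl
    intro f hf
    rw [hB, Finset.mem_filter] at hf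
    rw [hf.2]
  have hAB : ∑ f ∈ A, ((area (2 * m) f : ℝ) - μ) ^ 2 * q ^ area (2 * m) f +
      ∑ f ∈ B, ((area (2 * m) f : ℝ) - μ) ^ 2 * q ^ area (2 * m) f ≤
      ∑ f ∈ Lp hm2, ((area (2 * m) f : ℝ) - μ) ^ 2 * q ^ area (2 * m) f := by
    rw [← Finset.sum_union]
    · apply Finset.sum_le_sum_of_subset_of_nonneg
      · rw [hA, hB]
        exact Finset.union_subset (Finset.filter_subset _ _) (Finset.filter_subset _ _)
      · intro f _ _
        positivity
    · rw [Finset.disjoint_left]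
      intro f hf hf2
      rw [hA, Finset.mem_filter] at hf
      rw [hB, Finset.mem_filter] at hf2
      omega
  rw [hsA, hsB] at hAB
  have hqN : q ^ N ≤ q ^ (N + 1) := pow_le_pow_right₀ hq1.le (Nat.le_succ N)
  have hqN0 : 0 < q ^ N := by positivity
  have e1 : (2 * m : ℝ) * (((N : ℝ) + 1 - μ) ^ 2 * q ^ N) ≤
      A.card * (((N : ℝ) + 1 - μ) ^ 2 * q ^ (N + 1)) :=
    mul_le_mul hAc (mul_le_mul_of_nonneg_left hqN (sq_nonneg _)) (by positivity) (by positivity)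
  have e2 : (2 * m : ℝ) * (((N : ℝ) - μ) ^ 2 * q ^ N) ≤ B.card * (((N : ℝ) - μ) ^ 2 * q ^ N) :=
    mul_le_mul_of_nonneg_right hBc (by positivity)
  have e3 : (1 : ℝ) / 2 ≤ ((N : ℝ) + 1 - μ) ^ 2 + ((N : ℝ) - μ) ^ 2 := by
    nlinarith [sq_nonneg (2 * ((N : ℝ) - μ) + 1)]
  have e4 : (2 * m : ℝ) * q ^ N * (1 / 2) ≤
      (2 * m : ℝ) * q ^ N * (((N : ℝ) + 1 - μ) ^ 2 + ((N : ℝ) - μ) ^ 2) :=
    mul_le_mul_of_nonneg_left e3 (by positivity)
  have e5 : 1 / (C * q) * ∑ f ∈ Lp hm2, q ^ area (2 * m) f ≤ m * q ^ N := by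
    calc 1 / (C * q) * ∑ f ∈ Lp hm2, q ^ area (2 * m) f
        ≤ 1 / (C * q) * (C * m * q ^ (m ^ 2 / 4)) :=
          mul_le_mul_of_nonneg_left h3 (by positivity)
      _ = _ := by
          rw [hN, pow_succ]
          field_simp
  linarith

/-- squares against exponentials -/
theorem sq_le_pow {t : ℝ} (ht : 1 < t) : ∃ L : ℝ, ∀ j : ℕ, (j : ℝ) ^ 2 ≤ L * t ^ j := by
  have h1 : Tendsto (fun j : ℕ => (j : ℝ) ^ 2 * (1 / t) ^ j) atTop (𝓝 0) :=
    tendsto_pow_const_mul_const_pow_of_lt_one 2 (by positivity)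
      (by rw [div_lt_one (by linarith)]; exact ht)
  obtain ⟨L, hL⟩ := h1.bddAbove_range
  refine ⟨L, fun j => ?_⟩
  have h2 : (j : ℝ) ^ 2 * (1 / t) ^ j ≤ L := hL ⟨j, rfl⟩
  have h3 : 0 < t ^ j := by positivity
  have h4 : (1 / t) ^ j * t ^ j = 1 := by
    rw [← mul_pow, one_div_mul_cancel (by linarith), one_pow]
  calc (j : ℝ) ^ 2 = (j : ℝ) ^ 2 * (1 / t) ^ j * t ^ j := by rw [mul_assoc, h4, mul_one]
    _ ≤ L * t ^ j := mul_le_mul_of_nonneg_right h2 h3.le

/-- the distribution function of a rescaled area -/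
theorem dichotomy {C : ℝ} (hq0 : 0 < q) (hC : Bd q C) (hm : 2 ≤ m) {a b : ℝ} (hb : 0 ≤ b) (t : ℝ) :
    pr q m {x | (x - a) / b ≤ t} ∈ Set.Iic (1 - 2 / C) ∪ {1} := by
  by_cases h : (((m ^ 2 / 4 : ℕ) : ℝ) - a) / b ≤ t
  · right
    apply full hq0 hm
    intro n hn
    rw [Set.mem_ofPred_eq]
    refine le_trans ?_ h
    apply div_le_div_of_nonneg_right _ hb
    have : (n : ℝ) ≤ ((m ^ 2 / 4 : ℕ) : ℝ) := by exact_mod_cast hn
    linarith
  · left
    exact rest hq0 hC hm h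

end

/-- the weak limits -/
theorem limits {q C : ℝ} (hq0 : 0 < q) (hC : Bd q C) {s : ℕ → ℕ} (hs : Tendsto s atTop atTop) {a b : ℕ → ℝ}
    (hb : ∀ k, 0 ≤ b k) (μ : Measure ℝ) [IsProbabilityMeasure μ]
    (h : ∀ t : ℝ, μ {t} = 0 →
      Tendsto (fun k => pr q (s k) {x | (x - a k) / b k ≤ t}) atTop (𝓝 (cdf μ t))) :
    ∃ x : ℝ, μ (Set.Ioi x) = 0 ∧ 2 / C ≤ μ.real {x} := by
  classical
  obtain ⟨c, hc'⟩ : ∃ c, c = 2 / C := ⟨_, rfl⟩
  have hc0 : 0 < c := by
    rw [hc']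
    have := hC.1
    positivity
  have hc1 : c ≤ 1 := by
    have g1 := atom hq0 hC (m := 2) le_rfl
    have g2 := rest hq0 hC (m := 2) le_rfl (S := ∅) (Set.notMem_empty _)
    have g3 : 0 ≤ pr q 2 ∅ := by
      rw [pr_eq (m := 2) le_rfl]
      have := Z_pos hq0 (m := 2) le_rfl
      positivity
    rw [hc']
    linarith
  rw [← hc']
  have hcl : IsClosed (Set.Iic (1 - c) ∪ {1}) := isClosed_Iic.union isClosed_singleton
  have h1 : ∀ t : ℝ, μ {t} = 0 → cdf μ t ∈ Set.Iic (1 - c) ∪ {1} := by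
    intro t ht
    apply hcl.mem_of_tendsto (h t ht)
    filter_upwards [hs.eventually_ge_atTop 2] with k hk
    rw [hc']
    exact dichotomy hq0 hC hk (hb k) t
  -- the atoms are countable
  have hc : {t : ℝ | 0 < μ {t}}.Countable := by
    have := Measure.countable_meas_level_set_pos (μ := μ) (g := fun x : ℝ => x) measurable_id
    exact this
  have hd : Dense {t : ℝ | 0 < μ {t}}ᶜ := hc.dense_compl ℝ
  obtain ⟨A, hA⟩ : ∃ A, A = {t : ℝ | 1 - c < cdf μ t} := ⟨_, rfl⟩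
  have hne : A.Nonempty := by
    have := (tendsto_cdf_atTop μ).eventually (lt_mem_nhds (show 1 - c < 1 by linarith))
    obtain ⟨t, ht⟩ := this.exists
    exact ⟨t, by rw [hA]; exact ht⟩
  have hbd : BddBelow A := by
    have hle : ∃ t, cdf μ t ≤ 1 - c := by
      by_contra hcon
      push Not at hcon
      have g0 : ∀ t, cdf μ t = 1 := by
        intro t
        obtain ⟨v, hv1, hv2, hv3⟩ := hd.exists_between (show t - 1 < t by linarith)
        have h2 : μ {v} = 0 := by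
          by_contra h0
          exact hv1 (pos_iff_ne_zero.2 h0)
        rcases h1 v h2 with h4 | h4
        · rw [Set.mem_Iic] at h4
          have := hcon v
          linarith
        · rw [Set.mem_singleton_iff] at h4
          have h5 := monotone_cdf μ hv3.le
          have h6 := cdf_le_one μ t
          linarith
      have g1 : Tendsto (cdf μ) atBot (𝓝 1) := by
        apply tendsto_const_nhds.congr'
        exact Eventually.of_forall (fun t => (g0 t).symm)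
      have g2 := tendsto_nhds_unique g1 (tendsto_cdf_atBot μ)
      norm_num at g2
    obtain ⟨t, ht⟩ := hle
    refine ⟨t, fun u hu => ?_⟩
    by_contra hlt
    push Not at hlt
    have h2 := monotone_cdf μ hlt.le
    rw [hA, Set.mem_ofPred_eq] at hu
    linarith
  obtain ⟨x, hx⟩ : ∃ x, x = sInf A := ⟨_, rfl⟩
  have hle1 : ∀ t, cdf μ t ≤ 1 := fun t => cdf_le_one μ t
  have hgt : ∀ t, x < t → cdf μ t = 1 := by
    intro t ht
    rw [hx] at ht
    obtain ⟨u, hu, hut⟩ := exists_lt_of_csInf_lt hne ht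
    obtain ⟨v, hv1, hv2, hv3⟩ := hd.exists_between hut
    have h2 : μ {v} = 0 := by
      by_contra h0
      exact hv1 (pos_iff_ne_zero.2 h0)
    have h3 := monotone_cdf μ hv2.le
    rw [hA, Set.mem_ofPred_eq] at hu
    rcases h1 v h2 with h4 | h4
    · rw [Set.mem_Iic] at h4
      linarith
    · rw [Set.mem_singleton_iff] at h4
      have h5 := monotone_cdf μ hv3.le
      have h6 := hle1 t
      linarith
  have hlt : ∀ t, t < x → cdf μ t ≤ 1 - c := by
    intro t ht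
    by_contra h0
    push Not at h0
    have : x ≤ t := by
      rw [hx]
      exact csInf_le hbd (by rw [hA]; exact h0)
    linarith
  have hx1 : cdf μ x = 1 := by
    have h2 : Tendsto (cdf μ) (𝓝[>] x) (𝓝 (cdf μ x)) :=
      ((cdf μ).right_continuous x).mono_left (nhdsWithin_mono x Set.Ioi_subset_Ici_self)
    have h3 : Tendsto (cdf μ) (𝓝[>] x) (𝓝 1) := by
      apply tendsto_const_nhds.congr'
      filter_upwards [self_mem_nhdsWithin] with t ht
      exact (hgt t ht).symm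
    exact tendsto_nhds_unique h2 h3
  have hll : Function.leftLim (cdf μ) x ≤ 1 - c := by
    have h2 := (monotone_cdf μ).tendsto_leftLim x
    apply le_of_tendsto h2
    filter_upwards [self_mem_nhdsWithin] with t ht
    exact hlt t ht
  refine ⟨x, ?_, ?_⟩
  · have h2 : μ.real (Set.Iic x) = 1 := by rw [← cdf_eq_real, hx1]
    have h3 : μ (Set.Iic x) = 1 := by
      rw [Measure.real, ENNReal.toReal_eq_one_iff] at h2
      exact h2
    have h4 := prob_compl_eq_zero_iff (μ := μ) (measurableSet_Iic (a := x))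
    rw [Set.compl_Iic] at h4
    exact h4.2 h3
  · have h2 : μ {x} = ENNReal.ofReal (cdf μ x - Function.leftLim (cdf μ) x) := by
      conv_lhs => rw [← measure_cdf μ]
      rw [StieltjesFunction.measure_singleton]
    rw [Measure.real, h2, hx1, ENNReal.toReal_ofReal (by linarith)]
    linarith

/-- **The inflated fixed perimeter ensemble is not Gaussian.**  Let `q > 1` and let `X_m` be the
area in the fixed perimeter ensemble with parameter `q`.  There is `c > 0` with the following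
properties.
(1) `X_m ≤ ⌊m²/4⌋`, and the probability that `X_m = ⌊m²/4⌋` is at least `c`, for all `m ≥ 2`.
(2) For `1/q < ρ < 1` there is `K` such that the probability that `X_m ≤ ⌊m²/4⌋ - J` is at most
`K ρ^J`, for all `m ≥ 2` and all `J ≥ 0`.
(3) The variance of `X_m`, `m ≥ 4`, lies between two positive constants.
(4) If rescaled areas `(X_{s k} - a_k) / b_k`, with `s k → ∞` and `b_k ≥ 0`, converge in
distribution to a law `μ`, then `μ` has an atom of mass at least `c`, at the top of its support.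
(5) `(X_m - E X_m) / √(Var X_m)` does not converge in distribution to `N(0,1)`. -/
theorem result (q : ℝ) (hq : 1 < q) : ∃ c : ℝ, 0 < c ∧
    (∀ m : ℕ, 2 ≤ m → (∀ f : ZMod (2 * m) → ℤ × ℤ, IsLoop (2 * m) f → area (2 * m) f ≤ m ^ 2 / 4) ∧
      c ≤ pr q m {((m ^ 2 / 4 : ℕ) : ℝ)}) ∧
    (∀ ρ : ℝ, 1 / q < ρ → ρ < 1 → ∃ K : ℝ, ∀ m : ℕ, 2 ≤ m → ∀ J : ℕ,
      pr q m {x | x ≤ ((m ^ 2 / 4 : ℕ) : ℝ) - J} ≤ K * ρ ^ J) ∧
    (∃ v V : ℝ, 0 < v ∧ ∀ m : ℕ, 4 ≤ m → v ≤ var q m ∧ var q m ≤ V) ∧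
    (∀ s : ℕ → ℕ, Tendsto s atTop atTop → ∀ a b : ℕ → ℝ, (∀ k, 0 ≤ b k) →
      ∀ μ : Measure ℝ, IsProbabilityMeasure μ →
        (∀ t : ℝ, μ {t} = 0 → Tendsto (fun k => pr q (s k) {x | (x - a k) / b k ≤ t}) atTop
          (𝓝 (μ.real (Set.Iic t)))) →
        ∃ x : ℝ, μ (Set.Ioi x) = 0 ∧ c ≤ μ.real {x}) ∧
    ¬ ∀ t : ℝ, Tendsto (fun m => pr q m {x | (x - mean q m) / √(var q m) ≤ t}) atTop
      (𝓝 ((gaussianReal 0 1).real (Set.Iic t))) := by
  have hq0 : 0 < q := by linarith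
  obtain ⟨C, hC⟩ := exists_Bd hq
  have hc0 : 0 < 2 / C := by
    have := hC.1
    positivity
  have h3 : ∀ s : ℕ → ℕ, Tendsto s atTop atTop → ∀ a b : ℕ → ℝ, (∀ k, 0 ≤ b k) →
      ∀ μ : Measure ℝ, IsProbabilityMeasure μ →
        (∀ t : ℝ, μ {t} = 0 → Tendsto (fun k => pr q (s k) {x | (x - a k) / b k ≤ t}) atTop
          (𝓝 (μ.real (Set.Iic t)))) →
        ∃ x : ℝ, μ (Set.Ioi x) = 0 ∧ 2 / C ≤ μ.real {x} := by
    intro s hs a b hb μ hμ h
    apply limits hq0 hC hs hb μ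
    intro t ht
    rw [cdf_eq_real]
    exact h t ht
  refine ⟨2 / C, hc0, fun m hm => ⟨fun f hf => area_top hm hf, atom hq0 hC hm⟩, ?_, ?_, h3, ?_⟩
  · intro ρ hρ1 hρ2
    have hp : 1 < ρ * q := by
      rw [div_lt_iff₀ hq0] at hρ1
      exact hρ1
    have hp2 : ρ * q ≤ q := by nlinarith
    obtain ⟨C', hC'⟩ := exists_Bd hp
    refine ⟨C' / 2, fun m hm J => ?_⟩
    have := tail (q := q) (by linarith) hp2 hC' hm J
    have e : ρ * q / q = ρ := by field_simp
    rw [e] at this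
    exact this
  · obtain ⟨p, hp1, hp2⟩ := exists_between hq
    obtain ⟨C', hC'⟩ := exists_Bd hp1
    have ht : 1 < q / p := by
      rw [lt_div_iff₀ (by linarith)]
      linarith
    obtain ⟨L, hL⟩ := sq_le_pow ht
    have hC0 := hC.1
    refine ⟨1 / (C * q), L * (C' / 2), by positivity, fun m hm => ⟨var_ge hq hC hm, ?_⟩⟩
    exact (var_le hq0 (by omega) _).trans (second (by linarith) hp2.le hC' (by omega) hL)
  · intro h
    obtain ⟨x, -, hx⟩ := h3 (fun m => m) tendsto_id (fun m => mean q m) (fun m => √(var q m))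
      (fun m => Real.sqrt_nonneg _) (gaussianReal 0 1) inferInstance (fun t _ => h t)
    have := nullSingletonClass_gaussianReal (μ := 0) (v := 1) one_ne_zero
    rw [measureReal_def, measure_singleton, ENNReal.toReal_zero] at hx
    linarith

end Pool.Agent.Results.MP_d21795_pr.InflatedNotGaussian
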